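import Pool.Agent.RSC.Fin
import Pool.Agent.RSC.Conv
import Pool.Agent.Sarnak.Defs

open Filter Topology Set Uniformity Dynamics MeasureTheory ProbabilityTheory Sarnak8c

namespace Pool.Agent.Results.MP_8c12e3_nt.AlmostEvery

/-- **Property (S) for almost every multiplicative function.**  Let `χ` be a random multiplicative
function bounded by one whose values at the powers of different primes are independent, with
arbitrary laws, such that the sum of `Var χ(p) / p` over the primes `(log N)² < p ≤ N` tends to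
infinity.  Then almost surely `χ` has property (S); more generally, simultaneously for all systems
`(X, T)` of topological entropy at most `h`, all `Φ ∈ C(X)` and all `x`,
`limsup |(1/N) ∑_{n ≤ N} χ(n) Φ(Tⁿ x)| ≤ √(2h) ‖Φ‖`. -/
theorem result {Ω : Type*} [MeasurableSpace Ω] (μ : Measure Ω) [IsProbabilityMeasure μ]
    (χ : Ω → ℤ → ℂ) (hmult : ∀ ω, IsMult (χ ω)) (hone : ∀ ω, χ ω 1 = 1)
    (hbd : ∀ ω n, ‖χ ω n‖ ≤ 1) (hmeas : ∀ n : ℕ, Measurable fun ω => χ ω n)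
    (hind : iIndepFun (fun (p : Nat.Primes) (ω : Ω) (k : ℕ) => χ ω (((p : ℕ) : ℤ) ^ k)) μ)
    (hvar : Tendsto (fun N : ℕ => ∑ p ∈ (Finset.range (N + 1)).filter
      (fun p : ℕ => p.Prime ∧ Real.log N ^ 2 < (p : ℝ)),
        (∫ ω, ‖χ ω p - ∫ ω', χ ω' p ∂μ‖ ^ 2 ∂μ) / p) atTop atTop) :
    ∀ᵐ ω ∂μ, PropertyS (χ ω) ∧
      ∀ (X : Type) [MetricSpace X] [CompactSpace X] (T : X → X), Continuous T →
        ∀ h : ℝ, 0 ≤ h → coverEntropy T univ ≤ (h : EReal) →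
          ∀ (Φ : C(X, ℂ)) (x : X) (ε : ℝ), 0 < ε → ∀ᶠ N : ℕ in atTop,
            ‖(1 / (N : ℂ)) * ∑ n ∈ Finset.Icc 1 N, χ ω n * Φ (T^[n] x)‖ ≤
              Real.sqrt (2 * h) * ‖Φ‖ + ε := by
  have hRM := Pool.Agent.RSC.rm_of hmult hone hbd hmeas hind
  have hV : Pool.Agent.RSC.VarDiv μ (fun ω (n : ℕ) => χ ω (n : ℤ)) := hvar
  filter_upwards [Pool.Agent.RSC.ae_subG hRM hV] with ω hω
  have main : ∀ (X : Type) [MetricSpace X] [CompactSpace X] (T : X → X),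
        ∀ h : ℝ, 0 ≤ h → coverEntropy T univ ≤ (h : EReal) →
          ∀ (Φ : C(X, ℂ)) (x : X) (ε : ℝ), 0 < ε → ∀ᶠ N : ℕ in atTop,
            ‖(1 / (N : ℂ)) * ∑ n ∈ Finset.Icc 1 N, χ ω n * Φ (T^[n] x)‖ ≤
              Real.sqrt (2 * h) * ‖Φ‖ + ε := fun X _ _ T h h0 hh Φ x ε hε =>
    Pool.Agent.RSC.detB_main (f := fun n : ℕ => χ ω n) (fun n => hbd ω n) hω X T h h0 hh Φ x ε hε
  refine ⟨?_, fun X _ _ T _ h h0 hh Φ x ε hε => main X T h h0 hh Φ x ε hε⟩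
  intro X _ _ T _ hent Φ x
  rw [Metric.tendsto_atTop]
  intro ε hε
  obtain ⟨N₀, hN₀⟩ := eventually_atTop.1
    (main X T 0 le_rfl (by rw [hent]; simp) Φ x (ε / 2) (by positivity))
  refine ⟨N₀, fun N hN => ?_⟩
  have h1 := hN₀ N hN
  rw [dist_zero_right]
  simp only [mul_zero, Real.sqrt_zero, zero_mul, zero_add] at h1
  linarith

end Pool.Agent.Results.MP_8c12e3_nt.AlmostEvery
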