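import Pool.Agent.RSC.Fin
import Pool.Agent.RSC.Conv
import Pool.Agent.Sarnak.Defs

open Filter Topology MeasureTheory ProbabilityTheory ComplexConjugate Sarnak8c

namespace Pool.Agent.Results.MP_8c12e3_nt.AlmostEveryChowla

/-- **Chowla's conjecture for almost every multiplicative function.** -/
theorem result {Ω : Type*} [MeasurableSpace Ω] (μ : Measure Ω) [IsProbabilityMeasure μ]
    (χ : Ω → ℤ → ℂ) (hmult : ∀ ω, IsMult (χ ω)) (hone : ∀ ω, χ ω 1 = 1)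
    (hbd : ∀ ω n, ‖χ ω n‖ ≤ 1) (hmeas : ∀ n : ℕ, Measurable fun ω => χ ω n)
    (hind : iIndepFun (fun (p : Nat.Primes) (ω : Ω) (k : ℕ) => χ ω (((p : ℕ) : ℤ) ^ k)) μ)
    (hvar : Tendsto (fun N : ℕ => ∑ p ∈ (Finset.range (N + 1)).filter
      (fun p : ℕ => p.Prime ∧ Real.log N ^ 2 < (p : ℝ)),
        (∫ ω, ‖χ ω p - ∫ ω', χ ω' p ∂μ‖ ^ 2 ∂μ) / p) atTop atTop) :
    ∀ᵐ ω ∂μ, ∀ (k : ℕ) (s : Fin (k + 1) → ℕ), Function.Injective s → ∀ a b : Fin k → ℕ,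
      Tendsto (fun N : ℕ => (1 / (N : ℂ)) * ∑ n ∈ Finset.Icc 1 N,
        (χ ω (n + s 0) * ∏ i : Fin k,
          (χ ω (n + s i.succ) ^ a i * conj (χ ω (n + s i.succ)) ^ b i))) atTop (𝓝 0) := by
  have hRM := Pool.Agent.RSC.rm_of hmult hone hbd hmeas hind
  have hV : Pool.Agent.RSC.VarDiv μ (fun ω (n : ℕ) => χ ω (n : ℤ)) := hvar
  filter_upwards [Pool.Agent.RSC.ae_chowla hRM hV] with ω hω
  intro k s hs a b
  have := hω k s hs a b
  push_cast at this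
  exact this

end Pool.Agent.Results.MP_8c12e3_nt.AlmostEveryChowla
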