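import Pool.Agent.Sarnak.Twist
import Pool.Agent.Sarnak.Necessity

/-!
# Property (S) is an invariant of pretentious equivalence

Two bounded multiplicative functions at finite distance, up to a twist by a Dirichlet character
and by `n^{it}`, have property (S) together.
-/

open Filter Topology Finset ComplexConjugate

namespace Pool.Agent.Results.MP_8c12e3_nt.PretentiousInvariance

open Sarnak8c

lemma zero_of_one {χ : ℤ → ℂ} (hm : IsMult χ) (h : χ 1 ≠ 1) (n : ℤ) : χ n = 0 := by
  have h1 := hm 1 1 isCoprime_one_left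
  rw [mul_one] at h1
  have h2 : χ 1 = 0 := by
    have h3 : χ 1 * (χ 1 - 1) = 0 := by rw [mul_sub, ← h1]; ring
    rcases mul_eq_zero.1 h3 with h4 | h4
    · exact h4
    · exact (h (sub_eq_zero.1 h4)).elim
  have h5 := hm n 1 isCoprime_one_right
  rw [mul_one, h2, mul_zero] at h5
  exact h5

lemma BM_of {χ : ℤ → ℂ} (hm : IsMult χ) (hb : ∀ n, ‖χ n‖ ≤ 1) (h1 : χ 1 = 1) :
    BM (fun n : ℕ => χ n) where
  one := by simpa using h1
  mul := by
    intro m n h
    push_cast
    exact hm _ _ (Nat.isCoprime_iff_coprime.2 h)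
  bd := fun n => hb n

lemma BM_twist {f w : ℕ → ℂ} (hf : BM f) (hw1 : w 1 = 1)
    (hwm : ∀ m n : ℕ, m.Coprime n → w (m * n) = w m * w n) (hwb : ∀ n, ‖w n‖ ≤ 1) (t : ℝ) :
    BM (fun n : ℕ => f n * w n * ee (t * Real.log n)) where
  one := by simp [hf.one, hw1, ee]
  mul := by
    intro m n hmn
    rcases Nat.eq_zero_or_pos m with hm0 | hm0
    · subst hm0
      have : n = 1 := by simpa using hmn
      subst this
      simp [hf.one, hw1, ee]
    rcases Nat.eq_zero_or_pos n with hn0 | hn0
    · subst hn0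
      have : m = 1 := by simpa using hmn
      subst this
      simp [hf.one, hw1, ee]
    have hm' : (m : ℝ) ≠ 0 := by exact_mod_cast hm0.ne'
    have hn' : (n : ℝ) ≠ 0 := by exact_mod_cast hn0.ne'
    have e2 : ee (t * Real.log ((m * n : ℕ) : ℝ)) = ee (t * Real.log m) * ee (t * Real.log n) := by
      rw [← ee_add]
      congr 1
      push_cast
      rw [Real.log_mul hm' hn']; ring
    rw [hf.mul m n hmn, hwm m n hmn, e2]
    ring
  bd := by
    intro n
    rw [norm_mul, norm_ee, mul_one, norm_mul]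
    calc _ ≤ (1 : ℝ) * 1 := mul_le_mul (hf.bd n) (hwb n) (norm_nonneg _) (by norm_num)
      _ = 1 := one_mul _

/-- one direction -/
lemma transfer {χ χ' : ℤ → ℂ} (hχ : IsMult χ) (hχ' : IsMult χ') (hb : ∀ n, ‖χ n‖ ≤ 1)
    (hb' : ∀ n, ‖χ' n‖ ≤ 1) (h1 : χ 1 = 1) (h1' : χ' 1 = 1) (q : ℕ) (hq : 0 < q) (w : ℕ → ℂ)
    (hw1 : w 1 = 1) (hwm : ∀ m n : ℕ, m.Coprime n → w (m * n) = w m * w n)
    (hwb : ∀ n, ‖w n‖ ≤ 1) (hwp : ∀ n, w (n + q) = w n) (t : ℝ)
    (hD : Summable fun p : ℕ => if p.Prime then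
      (1 - (χ p * conj (χ' p * w p * ee (t * Real.log p))).re) / p else 0) :
    PropertyS χ' → PropertyS χ := by
  intro h
  rw [propertyS_iff] at h ⊢
  have hg : BM (fun n : ℕ => χ' n * w n * ee (t * Real.log n)) :=
    BM_twist (BM_of hχ' hb' h1') hw1 hwm hwb t
  have h2 : OrthDet (fun n : ℕ => χ' n * w n * ee (t * Real.log n)) :=
    (h.twist_periodic q hq hwp).twist_log t
  exact orthDet_of_close (BM_of hχ hb h1) hg hD h2

lemma not_summable_of_zero {u : ℕ → ℝ} (hu : ∀ p : ℕ, p.Prime → u p = 0)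
    (h : Summable fun p : ℕ => if p.Prime then (1 - u p) / p else 0) : False := by
  apply not_summable_one_div_on_primes
  refine h.congr fun p => ?_
  rw [Set.indicator_apply]
  by_cases hp : p.Prime
  · simp [hp, hu p hp]
  · simp [hp]

/-- Let `χ, χ' : ℤ → ℂ` be multiplicative and bounded by `1`, `ψ` a Dirichlet character and `t`
real. If the sum over the primes of `(1 - Re χ(p) conj(χ'(p) ψ(p) p^{it})) / p` converges, then
`χ` has property (S) if and only if `χ'` has. -/
theorem result (χ χ' : ℤ → ℂ) (hmul : IsMult χ) (hmul' : IsMult χ') (hbd : ∀ n, ‖χ n‖ ≤ 1)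
    (hbd' : ∀ n, ‖χ' n‖ ≤ 1) (q : ℕ) [NeZero q] (ψ : DirichletCharacter ℂ q) (t : ℝ)
    (hD : Summable fun p : Nat.Primes =>
      (1 - (χ p * conj (χ' p * (ψ p * (p : ℂ) ^ ((t : ℂ) * Complex.I)))).re) / (p : ℝ)) :
    PropertyS χ ↔ PropertyS χ' := by
  have hD2 : Summable fun p : ℕ => if p.Prime then
      (1 - (χ p * conj (χ' p * (ψ p * (p : ℂ) ^ ((t : ℂ) * Complex.I)))).re) / (p : ℝ) else 0 := by
    have h3 := (summable_subtype_iff_indicator (s := {p : ℕ | p.Prime}) (f := fun p : ℕ =>
      (1 - (χ p * conj (χ' p * (ψ p * (p : ℂ) ^ ((t : ℂ) * Complex.I)))).re) / (p : ℝ))).1 hD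
    refine h3.congr fun p => ?_
    rw [Set.indicator_apply]
    rfl
  have hD3 : Summable fun p : ℕ => if p.Prime then
      (1 - (χ p * conj (χ' p * ψ p * ee (t * Real.log p))).re) / (p : ℝ) else 0 := by
    refine hD2.congr fun p => ?_
    by_cases hp : p.Prime
    · simp only [hp, if_true]
      rw [cpow_eq_ee hp.one_lt.le, mul_assoc (χ' p)]
    · simp [hp]
  have h1 : χ 1 = 1 := by
    by_contra hne
    refine not_summable_of_zero (u := fun p : ℕ =>
      (χ p * conj (χ' p * ψ p * ee (t * Real.log p))).re) (fun p _ => ?_) hD3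
    simp [zero_of_one hmul hne]
  have h1' : χ' 1 = 1 := by
    by_contra hne
    refine not_summable_of_zero (u := fun p : ℕ =>
      (χ p * conj (χ' p * ψ p * ee (t * Real.log p))).re) (fun p _ => ?_) hD3
    simp [zero_of_one hmul' hne]
  have hq : 0 < q := NeZero.pos q
  constructor
  · -- from `χ` to `χ'`, with the conjugate twist
    refine transfer hmul' hmul hbd' hbd h1' h1 q hq (fun n : ℕ => conj (ψ n)) (by simp)
      (fun m n _ => by push_cast; rw [map_mul, map_mul])
      (fun n => by rw [RCLike.norm_conj]; exact DirichletCharacter.norm_le_one ψ _)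
      (fun n => by push_cast; simp) (-t) ?_
    refine hD3.congr fun p => ?_
    by_cases hp : p.Prime
    · simp only [hp, if_true]
      congr 2
      have : χ' p * conj (χ p * conj (ψ p) * ee (-t * Real.log p)) =
          conj (χ p * conj (χ' p * ψ p * ee (t * Real.log p))) := by
        simp only [map_mul, Complex.conj_conj, conj_ee']
        rw [neg_mul, neg_neg]; ring
      rw [this, Complex.conj_re]
    · simp [hp]
  · exact transfer hmul hmul' hbd hbd' h1 h1' q hq (fun n : ℕ => ψ n) (by simp)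
      (fun m n _ => by push_cast; rw [map_mul])
      (fun n => DirichletCharacter.norm_le_one ψ _)
      (fun n => by push_cast; simp) t hD3

end Pool.Agent.Results.MP_8c12e3_nt.PretentiousInvariance
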