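import Pool.Agent.Sarnak.Necessity

/-!
# Property (S) implies strong aperiodicity

A bounded multiplicative function that is orthogonal to all systems of zero entropy (or only to
those of polynomial complexity) is strongly aperiodic.
-/

open Filter Topology Finset ComplexConjugate

namespace Pool.Agent.Results.MP_8c12e3_nt.StrongAperiodicity

open Sarnak8c

lemma zero_of_one {χ : ℤ → ℂ} (hm : IsMult χ) (h : χ 1 ≠ 1) (n : ℤ) : χ n = 0 := by
  have h1 := hm 1 1 isCoprime_one_left
  rw [mul_one] at h1
  have h2 : χ 1 = 0 := by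
    have h3 : χ 1 * (χ 1 - 1) = 0 := by rw [mul_sub, ← h1]; ring
    rcases mul_eq_zero.1 h3 with h4 | h4
    · exact h4
    · exact (h (sub_eq_zero.1 h4)).elim
  have h5 := hm n 1 isCoprime_one_right
  rw [mul_one, h2, mul_zero] at h5
  exact h5

lemma pretDist_zero {χ : ℤ → ℂ} (h : ∀ n, χ n = 0) {q : ℕ} (ψ : DirichletCharacter ℂ q) (t : ℝ)
    (N : ℕ) : pretDist χ ψ t N = ∑ n ∈ range (N + 1), Set.indicator {p : ℕ | p.Prime}
      (fun n : ℕ => (1 : ℝ) / n) n := by
  unfold pretDist
  rw [sum_filter]
  apply sum_congr rfl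
  intro n _
  rw [Set.indicator_apply]
  simp [h]

lemma strongly_zero {χ : ℤ → ℂ} (h : ∀ n, χ n = 0) : StronglyAperiodic χ := by
  intro q _ ψ A C
  have hdiv : Tendsto (fun N : ℕ => ∑ n ∈ range N, Set.indicator {p : ℕ | p.Prime}
      (fun n : ℕ => (1 : ℝ) / n) n) atTop atTop := by
    rw [← not_summable_iff_tendsto_nat_atTop_of_nonneg]
    · exact not_summable_one_div_on_primes
    · intro n
      apply Set.indicator_nonneg
      intro p _
      positivity
  have h2 := (tendsto_add_atTop_iff_nat 1).2 hdiv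
  filter_upwards [h2.eventually_ge_atTop C] with N hN t _
  rw [pretDist_zero h]
  exact hN

theorem stronglyAperiodic_of_poly {χ : ℤ → ℂ} (hm : IsMult χ) (hb : ∀ n, ‖χ n‖ ≤ 1)
    (hS : PropertySPoly χ) : StronglyAperiodic χ := by
  by_cases h1 : χ 1 = 1
  · intro q _ ψ A C
    by_contra hcon
    rw [not_eventually] at hcon
    have hfr : ∃ᶠ N : ℕ in atTop, ∃ t : ℝ, |t| ≤ (N : ℝ) ^ A ∧ pretDist χ ψ t N < C := by
      refine hcon.mono fun N hN => ?_
      push Not at hN
      exact hN
    obtain ⟨ε, hε, B, hB⟩ := exists_scales hm hb h1 ψ A C hfr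
    exact no_scales hb hS ψ ε hε B hB
  · exact strongly_zero (zero_of_one hm h1)

/-- Let `χ : ℤ → ℂ` be multiplicative and bounded by `1`. If `χ` has property (S), or only the
same property for the systems of polynomial complexity, then `χ` is strongly aperiodic: for every
Dirichlet character `ψ` and all real `A`, `C`, the distance `D(χ, ψ n^{it}; N)^2` is at least `C`
for all large `N` and all real `t` with `|t| ≤ N ^ A`. -/
theorem result (χ : ℤ → ℂ) (hmul : IsMult χ) (hbd : ∀ n, ‖χ n‖ ≤ 1)
    (hS : PropertyS χ ∨ PropertySPoly χ) : StronglyAperiodic χ := by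
  rcases hS with h | h
  · exact stronglyAperiodic_of_poly hmul hbd (propertySPoly_of_propertyS h)
  · exact stronglyAperiodic_of_poly hmul hbd h

end Pool.Agent.Results.MP_8c12e3_nt.StrongAperiodicity
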